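import Pool.Agent.TH949.TX.BSDE
import Pool.Agent.TH941.Newform

/-!
# The product of Birch and Swinnerton-Dyer in every window `[X^(1-δ), X]`

`E : y² = x³ + a x + b` is an elliptic curve over `ℚ`, `a, b ∈ ℤ`, `N_p` is the number of points modulo
`p` (with the point at infinity) and `P(x) = ∏_{p ≤ x, p ∤ 2Δ} N_p / p`.  `F` is the entire continuation
of the incomplete `L`-series `∏_{p ∤ 2Δ} (1 - a_p p^{-s} + p^{1-2s})⁻¹` and `r = ord_{s=1} F`; `f` is the
newform of `E`.  Put `g(x) = P(x) / (log x)^r` and `T = √2 e^{rγ} r! / |F^{(r)}(1)|`.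

The original conjecture of Birch and Swinnerton-Dyer says that `g(x)` converges to a positive number.
Goldfeld (1982) showed that the limit then is `T` and that `F` has no zeros with `Re s > 1`.  Here all statements
concern the windows `[X^(1-δ), X]` with a fixed `δ > 0`, and no hypothesis of Riemann type is made.

* In every window (`X` large) there is an `x` with `g(x) > T - ε`.
* If `F` has no REAL zeros `s > 1`, there is in every window an `x` with `|g(x) - T| < ε`.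
* A zero `s` with `Re s > 1 + c`, `c ≥ 0`, makes `P(x) > exp(x^c)` for some `x` in every window; if there are
  no real zeros `> 1 + c`, it also makes `P(x) < exp(-x^c)` for some `x` in every window; if there are no real
  zeros `> 1`, then `g` comes near every number `≥ 0` in every window.
* Goldfeld's theorem needs only ONE sequence of windows: if for every `ε > 0` there are arbitrarily large `X`
  with `|P(x) / (log x)^ρ - A| < ε` for all `x ∈ [X^(1-δ), X]`, `A ≠ 0`, then `F` has no zeros with `Re s > 1`,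
  `ρ = r` and `A = T`.

The tools are an explicit formula with Gaussian weights and the pigeonhole principle (`Pool.Agent.TH949.TX`) and
the limit of the Riesz means under the Riemann hypothesis (`Pool.Agent.TH942.RZ`, helper942).
-/

set_option autoImplicit false

namespace Pool.Agent.Results.MP_3283e1_nt.EveryWindow

open Filter Topology Classical CongruenceSubgroup UpperHalfPlane
open scoped MatrixGroups

/-- `N_p`: the number of points of `y² = x³ + a x + b` modulo `p`, with the point at infinity. -/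
noncomputable def numPoints (a b : ℤ) (p : ℕ) : ℕ :=
  Nat.card {q : ZMod p × ZMod p // q.2 ^ 2 = q.1 ^ 3 + (a : ZMod p) * q.1 + (b : ZMod p)} + 1

/-- `p` is a prime that does not divide `2 Δ`, where `Δ = -4 a³ - 27 b²`. -/
def Good (a b : ℤ) (p : ℕ) : Prop :=
  p.Prime ∧ ¬ ((p : ℤ) ∣ 2 * (-4 * a ^ 3 - 27 * b ^ 2))

/-- The original Birch and Swinnerton-Dyer product `P(x) = ∏_{p ≤ x, p ∤ 2Δ} N_p / p`. -/
noncomputable def P (a b : ℤ) (x : ℝ) : ℝ :=
  ∏ p ∈ (Finset.range (⌊x⌋₊ + 1)).filter (Good a b), ((numPoints a b p : ℝ) / p)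

/-- `F` is an entire function which for `Re s > 3/2` is the incomplete `L`-series
`∏_{p ∤ 2Δ} (1 - a_p p^{-s} + p^{1-2s})⁻¹`, `a_p = p + 1 - N_p`, of `y² = x³ + a x + b`. -/
def IsLSeries (a b : ℤ) (F : ℂ → ℂ) : Prop :=
  Differentiable ℂ F ∧ ∀ s : ℂ, (3 : ℝ) / 2 < s.re →
    HasProd (fun p : ℕ => if Good a b p then
      (1 - ((p : ℂ) + 1 - (numPoints a b p : ℂ)) * (p : ℂ) ^ (-s) + (p : ℂ) ^ (1 - 2 * s))⁻¹ else 1)
      (F s)

/-- The `n`-th Fourier coefficient of `f`. -/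
noncomputable def coef {N : ℕ} (f : CuspForm (Gamma0 N : Subgroup (GL (Fin 2) ℝ)) 2) (n : ℕ) : ℂ :=
  (qExpansion 1 f).coeff n

/-- `f ∈ S_2(Γ₀(N))` is the newform of the elliptic curve `E : y² = x³ + a x + b` of conductor `N`: the
Fourier coefficients `c(n)` of `f` are real with `c(1) = 1`, they satisfy the Hecke relations
`c(mn) = c(m) c(n)` for coprime `m`, `n` and `c(p^(j+2)) = c(p) c(p^(j+1)) - p c(p^j)` (without the last
term if `p ∣ N`), `c(p) = a_p = p + 1 - N_p` for all primes `p ∤ 2Δ`, `|c(p)| ≤ 2 √p` for all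
`p ∤ N` (Hasse) and `c(p) = 0, 1, -1` for `p ∣ N`. -/
structure IsNewformOf (a b : ℤ) (N : ℕ) (f : CuspForm (Gamma0 N : Subgroup (GL (Fin 2) ℝ)) 2) :
    Prop where
  one : coef f 1 = 1
  real : ∀ n, (coef f n).im = 0
  mul : ∀ m n : ℕ, Nat.Coprime m n → coef f (m * n) = coef f m * coef f n
  pow : ∀ p j : ℕ, p.Prime → coef f (p ^ (j + 2)) = coef f p * coef f (p ^ (j + 1)) -
      (if p ∣ N then 0 else (p : ℂ) * coef f (p ^ j))
  points : ∀ p : ℕ, Good a b p → coef f p = (p : ℂ) + 1 - (numPoints a b p : ℂ)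
  good : ∀ p : ℕ, p.Prime → ¬ p ∣ N → ‖coef f p‖ ≤ 2 * Real.sqrt p
  bad : ∀ p : ℕ, p.Prime → p ∣ N → coef f p = 0 ∨ coef f p = 1 ∨ coef f p = -1

/-- `g(x) = P(x) / (log x)^r` -/
noncomputable def g (a b : ℤ) (r : ℕ) (x : ℝ) : ℝ := P a b x / (Real.log x) ^ r

/-- Goldfeld's constant `T = √2 e^{rγ} r! / |F^{(r)}(1)|` -/
noncomputable def T (F : ℂ → ℂ) (r : ℕ) : ℝ :=
  √2 * Real.exp (r * Real.eulerMascheroniConstant) * (r.factorial : ℝ) / ‖iteratedDeriv r F 1‖

/-- For all sufficiently large `X` there is an `x` with the property `S` in the window `[X^(1-δ), X]`. -/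
def InEveryWindow (δ : ℝ) (S : ℝ → Prop) : Prop :=
  ∀ᶠ X : ℝ in atTop, ∃ x : ℝ, X ^ (1 - δ) ≤ x ∧ x ≤ X ∧ S x

/-! ### Translation to the definitions of the imported files -/

variable {a b : ℤ}

theorem P_eq (x : ℝ) : P a b x = Pool.Agent.W263.BSD.bsdProduct a b x := by
  unfold P Pool.Agent.W263.BSD.bsdProduct numPoints Pool.Agent.W263.BSD.pointCount
  refine Finset.prod_congr rfl fun p _ => ?_
  push_cast
  rfl

theorem numPoints_sub (p : ℕ) : (p : ℂ) + 1 - (numPoints a b p : ℂ) =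
    (p : ℂ) - (Pool.Agent.W263.BSD.pointCount a b p : ℂ) := by
  unfold numPoints Pool.Agent.W263.BSD.pointCount
  push_cast
  ring

theorem isLSeries {F : ℂ → ℂ} (hF : IsLSeries a b F) :
    Pool.Agent.W263.BSD.IsLSeries a b F := by
  refine ⟨hF.1, fun s hs => ?_⟩
  have h := hF.2 s hs
  simp only [numPoints_sub] at h
  exact h

theorem hecke {N : ℕ} {f : CuspForm (Gamma0 N : Subgroup (GL (Fin 2) ℝ)) 2}
    (hf : IsNewformOf a b N f) : Pool.Agent.TH941.Hecke f where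
  one := hf.one
  real := hf.real
  mul := hf.mul
  pow := hf.pow
  good := hf.good
  bad := fun p hp h => by
    rcases hf.bad p hp h with h1 | h1 | h1
    · have h2 : ‖coef f p‖ ≤ 1 := by rw [h1]; simp
      exact h2
    · have h2 : ‖coef f p‖ ≤ 1 := by rw [h1]; simp
      exact h2
    · have h2 : ‖coef f p‖ ≤ 1 := by rw [h1]; simp
      exact h2

theorem hyp {N : ℕ} [NeZero N] {f : CuspForm (Gamma0 N : Subgroup (GL (Fin 2) ℝ)) 2}
    (hΔ : 4 * a ^ 3 + 27 * b ^ 2 ≠ 0) (hf : IsNewformOf a b N f) {F : ℂ → ℂ} (hF : IsLSeries a b F) {r : ℕ}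
    (hr : analyticOrderAt F 1 = r) : Pool.Agent.TH949.TX.Hyp a b F r where
  disc := hΔ
  rs := (hecke hf).rsSum_tendsto hΔ fun p hp => (hf.points p hp).trans (numPoints_sub p)
  gr := Pool.Agent.TH942.RZ.growth_newform hΔ (isLSeries hF) (hecke hf)
    fun p hp => (hf.points p hp).trans (numPoints_sub p)
  lser := isLSeries hF
  ord := hr

theorem T_pos {F : ℂ → ℂ} (hF : IsLSeries a b F) {r : ℕ} (hr : analyticOrderAt F 1 = r) : 0 < T F r := by
  obtain ⟨h1, -⟩ := Pool.Agent.W263.BSD.lead_limit hF.1 hr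
  unfold Pool.Agent.W263.BSD.leadAbs at h1
  have h2 : (0 : ℝ) < r.factorial := by exact_mod_cast r.factorial_pos
  have h3 : 0 < ‖iteratedDeriv r F 1‖ := by
    rw [div_pos_iff] at h1
    rcases h1 with h1 | h1
    · exact h1.1
    · linarith [h1.2]
  unfold T
  positivity

theorem g_eq (r : ℕ) {x : ℝ} (hx : 3 ≤ x) : g a b r x = Real.exp (Pool.Agent.TH949.TX.ll a b r x) := by
  rw [Pool.Agent.TH949.TX.exp_ll r hx]
  unfold g
  rw [P_eq]

/-- It suffices to consider one small `δ`, and large `x`. -/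
theorem every {δ : ℝ} (hδ : 0 < δ) {S S' : ℝ → Prop}
    (h : ∀ δ1 : ℝ, 0 < δ1 → δ1 < 1 → ∀ᶠ X : ℝ in atTop, ∃ x : ℝ, X ^ (1 - δ1) ≤ x ∧ x ≤ X ∧ S x)
    (hS : ∀ x : ℝ, 3 ≤ x → S x → S' x) : InEveryWindow δ S' := by
  have h1 := h (min δ (1 / 2)) (by positivity) (lt_of_le_of_lt (min_le_right _ _) (by norm_num))
  have h2 := Pool.Agent.TH949.TX.window_and (lt_of_le_of_lt (min_le_right δ (1 / 2)) (by norm_num)) h1
    (eventually_ge_atTop (3 : ℝ))
  refine Pool.Agent.TH949.TX.window_mono (min_le_left δ (1 / 2)) (h2.mono ?_)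
  rintro X ⟨x, k1, k2, k3, k4⟩
  exact ⟨x, k1, k2, hS x k4 k3⟩

/-- **The product of Birch and Swinnerton-Dyer in every window.** -/
theorem result (a b : ℤ) (hΔ : 4 * a ^ 3 + 27 * b ^ 2 ≠ 0) (F : ℂ → ℂ) (hF : IsLSeries a b F)
    (N : ℕ) [NeZero N] (f : CuspForm (Gamma0 N : Subgroup (GL (Fin 2) ℝ)) 2)
    (hf : IsNewformOf a b N f) :
    ∃ r : ℕ, analyticOrderAt F 1 = r ∧ 0 < T F r ∧ ∀ δ : ℝ, 0 < δ →
      (∀ ε : ℝ, 0 < ε → InEveryWindow δ (fun x => T F r - ε < g a b r x)) ∧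
      ((∀ s : ℝ, 1 < s → F s ≠ 0) →
        ∀ ε : ℝ, 0 < ε → InEveryWindow δ (fun x => |g a b r x - T F r| < ε)) ∧
      (∀ c : ℝ, 0 ≤ c → (∃ s : ℂ, 1 + c < s.re ∧ F s = 0) →
        InEveryWindow δ (fun x => Real.exp (x ^ c) < P a b x) ∧
        ((∀ s : ℝ, 1 + c < s → F s ≠ 0) → InEveryWindow δ (fun x => P a b x < Real.exp (-x ^ c)))) ∧
      ((∀ s : ℝ, 1 < s → F s ≠ 0) → (∃ s : ℂ, 1 < s.re ∧ F s = 0) →
        ∀ γ : ℝ, 0 ≤ γ → ∀ ε : ℝ, 0 < ε → InEveryWindow δ (fun x => |g a b r x - γ| < ε)) ∧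
      (∀ ρ A : ℝ, A ≠ 0 →
        (∀ ε : ℝ, 0 < ε → ∃ᶠ X : ℝ in atTop, ∀ x : ℝ, X ^ (1 - δ) ≤ x → x ≤ X →
          |P a b x / Real.log x ^ ρ - A| < ε) →
        (∀ s : ℂ, 1 < s.re → F s ≠ 0) ∧ ρ = r ∧ A = T F r) := by
  have hF' := isLSeries hF
  obtain ⟨r, hr⟩ := Pool.Agent.W263.BSD.order_finite hF'
  have hT := T_pos hF hr
  have H := hyp hΔ hf hF hr
  refine ⟨r, hr, hT, fun δ hδ => ⟨?_, ?_, ?_, ?_, ?_⟩⟩
  · intro ε hε
    obtain ⟨ε', h1, h2⟩ := Pool.Agent.TH949.TX.exp_close hT hε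
    refine every hδ (fun δ1 hd0 hd1 => Pool.Agent.TH949.TX.every_up H hd0 hd1 (half_pos h1)) ?_
    intro x hx h3
    rw [g_eq r hx]
    -- monotonicity
    have h4 := h2 (Real.log (T F r) - ε' / 2) (by
      rw [sub_sub_cancel_left, abs_neg, abs_of_pos (half_pos h1)]
      linarith)
    have h5 := (abs_lt.1 h4).1
    have h6 := Real.exp_lt_exp.2 h3
    have h7 : Pool.Agent.TH949.TX.TG F r = T F r := rfl
    rw [h7] at h6
    linarith
  · intro hreal ε hε
    obtain ⟨ε', h1, h2⟩ := Pool.Agent.TH949.TX.exp_close hT hε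
    refine every hδ (fun δ1 hd0 hd1 => Pool.Agent.TH949.TX.every_mid H hreal hd0 hd1 h1) ?_
    intro x hx h3
    rw [g_eq r hx]
    exact h2 _ h3
  · rintro c hc ⟨s, hs, h0⟩
    constructor
    · refine (Pool.Agent.TH949.TX.bsd_up hF' hc hs h0 (C := 1) hδ).mono ?_
      rintro X ⟨x, k1, k2, k3, k4⟩
      refine ⟨x, k1, k2, ?_⟩
      show Real.exp (x ^ c) < P a b x
      rw [P_eq, ← Real.exp_log (Pool.Agent.W263.BSD.bsdProduct_pos (a := a) (b := b) x)]
      apply Real.exp_lt_exp.2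
      linarith
    · intro hreal
      refine (Pool.Agent.TH949.TX.bsd_down hF' hc hreal hs h0 (C := 1) hδ).mono ?_
      rintro X ⟨x, k1, k2, k3, k4⟩
      refine ⟨x, k1, k2, ?_⟩
      show P a b x < Real.exp (-x ^ c)
      rw [P_eq, ← Real.exp_log (Pool.Agent.W263.BSD.bsdProduct_pos (a := a) (b := b) x)]
      apply Real.exp_lt_exp.2
      linarith
  · intro hreal hz γ hγ ε hε
    rcases hγ.eq_or_lt with h | h
    · obtain ⟨s, hs, h0⟩ := hz
      refine every hδ (fun δ1 hd0 hd1 => Pool.Agent.TH949.TX.zero_down hF' hreal hs h0 r (Real.log ε) hd0 hd1) ?_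
      intro x hx h3
      rw [← h, sub_zero, g_eq r hx, abs_of_pos (Real.exp_pos _), ← Real.exp_log hε]
      exact Real.exp_lt_exp.2 h3
    · obtain ⟨ε', h1, h2⟩ := Pool.Agent.TH949.TX.exp_close h hε
      refine every hδ (fun δ1 hd0 hd1 =>
        Pool.Agent.TH949.TX.every_value H hreal hz (Real.log γ) hd0 hd1 h1) ?_
      intro x hx h3
      rw [g_eq r hx]
      exact h2 _ h3
  · intro ρ A hA h
    refine Pool.Agent.TH949.TX.goldfeld_window H hT hδ hA fun ε hε => ?_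
    refine (h ε hε).mono fun X hX x k1 k2 => ?_
    rw [← P_eq]
    exact hX x k1 k2

end Pool.Agent.Results.MP_3283e1_nt.EveryWindow
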