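import Pool.Agent.W263.BSD.Lead8
import Pool.Agent.TH941.Newform

/-!
# The limit points of `∏ N_p/p / (log x)^r`

`E : y² = x³ + a x + b` is an elliptic curve over `ℚ`, `a, b ∈ ℤ`, `N_p` is the number of points modulo
`p` (with the point at infinity) and `P(x) = ∏_{p ≤ x, p ∤ 2Δ} N_p / p`.  `F` is the entire continuation
of the incomplete `L`-series `∏_{p ∤ 2Δ} (1 - a_p p^{-s} + p^{1-2s})⁻¹` and `r = ord_{s=1} F`; `f` is the
newform of `E`.  Put `g(x) = P(x) / (log x)^r` and `T = √2 e^{rγ} r! / |F^{(r)}(1)|`.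

The original conjecture of Birch and Swinnerton-Dyer says that `g(x)` converges to a positive number.
Goldfeld showed that the limit then is `T` and that `F` has no zeros with `Re s > 1`.  Here the set of the
limit points of `g` is described without any convergence hypothesis.

* The upper limit of `g` is at least `T`, always.
* A number `c > 0` is a limit point of `g` iff it lies between the lower and the upper limit.
* Suppose that `F` has no REAL zeros `s > 1`.  Then `T` is a limit point of `g`.  The original conjecture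
  (convergence of `g` to a non-zero number) holds for `E` iff `T` is the only positive limit point of `g`.
  If `F` has a zero with `Re s > 1`, then ALL numbers `c ≥ 0` are limit points of `g`, and `g` is unbounded.

The tools are those of `Pool.Agent.W263.BSD` (starting files: brackets for the product with a correction
factor, Landau's theorem) and of `Pool.Agent.TH941` (helper941: the correction factor tends to `1/√2`, by
Rankin and Selberg).
-/

set_option autoImplicit false

namespace Pool.Agent.Results.MP_3283e1_nt.LimitSet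

open Filter Topology Classical CongruenceSubgroup UpperHalfPlane
open scoped MatrixGroups

/-- `N_p`: the number of points of `y² = x³ + a x + b` modulo `p`, with the point at infinity. -/
noncomputable def numPoints (a b : ℤ) (p : ℕ) : ℕ :=
  Nat.card {q : ZMod p × ZMod p // q.2 ^ 2 = q.1 ^ 3 + (a : ZMod p) * q.1 + (b : ZMod p)} + 1

/-- `p` is a prime that does not divide `2 Δ`, where `Δ = -4 a³ - 27 b²`. -/
def Good (a b : ℤ) (p : ℕ) : Prop :=
  p.Prime ∧ ¬ ((p : ℤ) ∣ 2 * (-4 * a ^ 3 - 27 * b ^ 2))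

/-- The original Birch and Swinnerton-Dyer product `P(x) = ∏_{p ≤ x, p ∤ 2Δ} N_p / p`. -/
noncomputable def P (a b : ℤ) (x : ℝ) : ℝ :=
  ∏ p ∈ (Finset.range (⌊x⌋₊ + 1)).filter (Good a b), ((numPoints a b p : ℝ) / p)

/-- `F` is an entire function which for `Re s > 3/2` is the incomplete `L`-series
`∏_{p ∤ 2Δ} (1 - a_p p^{-s} + p^{1-2s})⁻¹`, `a_p = p + 1 - N_p`, of `y² = x³ + a x + b`. -/
def IsLSeries (a b : ℤ) (F : ℂ → ℂ) : Prop :=
  Differentiable ℂ F ∧ ∀ s : ℂ, (3 : ℝ) / 2 < s.re →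
    HasProd (fun p : ℕ => if Good a b p then
      (1 - ((p : ℂ) + 1 - (numPoints a b p : ℂ)) * (p : ℂ) ^ (-s) + (p : ℂ) ^ (1 - 2 * s))⁻¹ else 1)
      (F s)

/-- The `n`-th Fourier coefficient of `f`. -/
noncomputable def coef {N : ℕ} (f : CuspForm (Gamma0 N : Subgroup (GL (Fin 2) ℝ)) 2) (n : ℕ) : ℂ :=
  (qExpansion 1 f).coeff n

/-- `f ∈ S_2(Γ₀(N))` is the newform of the elliptic curve `E : y² = x³ + a x + b` of conductor `N`: the
Fourier coefficients `c(n)` of `f` are real with `c(1) = 1`, they satisfy the Hecke relations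
`c(mn) = c(m) c(n)` for coprime `m`, `n` and `c(p^(j+2)) = c(p) c(p^(j+1)) - p c(p^j)` (without the last
term if `p ∣ N`), `c(p) = a_p = p + 1 - N_p` for all primes `p ∤ 2Δ`, `|c(p)| ≤ 2 √p` for all
`p ∤ N` (Hasse) and `c(p) = 0, 1, -1` for `p ∣ N`. -/
structure IsNewformOf (a b : ℤ) (N : ℕ) (f : CuspForm (Gamma0 N : Subgroup (GL (Fin 2) ℝ)) 2) :
    Prop where
  one : coef f 1 = 1
  real : ∀ n, (coef f n).im = 0
  mul : ∀ m n : ℕ, Nat.Coprime m n → coef f (m * n) = coef f m * coef f n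
  pow : ∀ p j : ℕ, p.Prime → coef f (p ^ (j + 2)) = coef f p * coef f (p ^ (j + 1)) -
      (if p ∣ N then 0 else (p : ℂ) * coef f (p ^ j))
  points : ∀ p : ℕ, Good a b p → coef f p = (p : ℂ) + 1 - (numPoints a b p : ℂ)
  good : ∀ p : ℕ, p.Prime → ¬ p ∣ N → ‖coef f p‖ ≤ 2 * Real.sqrt p
  bad : ∀ p : ℕ, p.Prime → p ∣ N → coef f p = 0 ∨ coef f p = 1 ∨ coef f p = -1

/-- `g(x) = P(x) / (log x)^r` -/
noncomputable def g (a b : ℤ) (r : ℕ) (x : ℝ) : ℝ := P a b x / (Real.log x) ^ r

/-- Goldfeld's constant `T = √2 e^{rγ} r! / |F^{(r)}(1)|` -/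
noncomputable def T (F : ℂ → ℂ) (r : ℕ) : ℝ :=
  √2 * Real.exp (r * Real.eulerMascheroniConstant) * (r.factorial : ℝ) / ‖iteratedDeriv r F 1‖

/-! ### Translation to the definitions of the imported files -/

variable {a b : ℤ}

theorem P_eq (x : ℝ) : P a b x = Pool.Agent.W263.BSD.bsdProduct a b x := by
  unfold P Pool.Agent.W263.BSD.bsdProduct numPoints Pool.Agent.W263.BSD.pointCount
  refine Finset.prod_congr rfl fun p _ => ?_
  push_cast
  rfl

theorem numPoints_sub (p : ℕ) : (p : ℂ) + 1 - (numPoints a b p : ℂ) =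
    (p : ℂ) - (Pool.Agent.W263.BSD.pointCount a b p : ℂ) := by
  unfold numPoints Pool.Agent.W263.BSD.pointCount
  push_cast
  ring

theorem isLSeries {F : ℂ → ℂ} (hF : IsLSeries a b F) :
    Pool.Agent.W263.BSD.IsLSeries a b F := by
  refine ⟨hF.1, fun s hs => ?_⟩
  have h := hF.2 s hs
  simp only [numPoints_sub] at h
  exact h

theorem hecke {N : ℕ} {f : CuspForm (Gamma0 N : Subgroup (GL (Fin 2) ℝ)) 2}
    (hf : IsNewformOf a b N f) : Pool.Agent.TH941.Hecke f where
  one := hf.one
  real := hf.real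
  mul := hf.mul
  pow := hf.pow
  good := hf.good
  bad := fun p hp h => by
    rcases hf.bad p hp h with h1 | h1 | h1
    · have h2 : ‖coef f p‖ ≤ 1 := by rw [h1]; simp
      exact h2
    · have h2 : ‖coef f p‖ ≤ 1 := by rw [h1]; simp
      exact h2
    · have h2 : ‖coef f p‖ ≤ 1 := by rw [h1]; simp
      exact h2

theorem rs {N : ℕ} [NeZero N] {f : CuspForm (Gamma0 N : Subgroup (GL (Fin 2) ℝ)) 2}
    (hΔ : 4 * a ^ 3 + 27 * b ^ 2 ≠ 0) (hf : IsNewformOf a b N f) :
    Tendsto (Pool.Agent.W263.BSD.rsSum a b) atTop (𝓝 0) :=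
  (hecke hf).rsSum_tendsto hΔ fun p hp => (hf.points p hp).trans (numPoints_sub p)

theorem P_pos (x : ℝ) : 0 < P a b x := by
  rw [P_eq]
  exact Pool.Agent.W263.BSD.bsdProduct_pos x

/-! ### A discrete intermediate value theorem -/

theorem cluster_of_freq {h : ℕ → ℝ} (hd : Tendsto (fun n => h (n + 1) - h n) atTop (𝓝 0)) {c : ℝ}
    (h1 : ∀ ε > 0, ∃ᶠ n in atTop, h n < c + ε) (h2 : ∀ ε > 0, ∃ᶠ n in atTop, c - ε < h n) {ε : ℝ}
    (hε : 0 < ε) : ∃ᶠ n in atTop, |h n - c| < ε := by
  by_contra hcon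
  rw [not_frequently] at hcon
  obtain ⟨N1, hN1⟩ := eventually_atTop.mp hcon
  obtain ⟨N2, hN2⟩ := Metric.tendsto_atTop.mp hd ε hε
  set N := max N1 N2 with hN
  have hA : ∀ n, N ≤ n → h n ≤ c - ε ∨ c + ε ≤ h n := by
    intro n hn
    have := hN1 n ((le_max_left _ _).trans hn)
    rw [not_lt, le_abs] at this
    rcases this with h3 | h3
    · right; linarith
    · left; linarith
  have hB : ∀ n, N ≤ n → |h (n + 1) - h n| < ε := by
    intro n hn
    have := hN2 n ((le_max_right _ _).trans hn)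
    rwa [Real.dist_eq, sub_zero] at this
  rcases hA N le_rfl with h3 | h3
  · have hC : ∀ n, N ≤ n → h n ≤ c - ε := by
      intro n hn
      induction n, hn using Nat.le_induction with
      | base => exact h3
      | succ n hn ih =>
        rcases hA (n + 1) (by omega) with h4 | h4
        · exact h4
        · have := (abs_lt.mp (hB n hn)).2
          linarith
    obtain ⟨n, hn1, hn2⟩ := ((h2 ε hε).and_eventually (eventually_ge_atTop N)).exists
    have := hC n hn2
    linarith
  · have hC : ∀ n, N ≤ n → c + ε ≤ h n := by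
      intro n hn
      induction n, hn using Nat.le_induction with
      | base => exact h3
      | succ n hn ih =>
        rcases hA (n + 1) (by omega) with h4 | h4
        · have := (abs_lt.mp (hB n hn)).1
          linarith
        · exact h4
    obtain ⟨n, hn1, hn2⟩ := ((h1 ε hε).and_eventually (eventually_ge_atTop N)).exists
    have := hC n hn2
    linarith

/-! ### The increments -/

/-- `log P(n) - r log log n` -/
noncomputable def ll (a b : ℤ) (r : ℕ) (x : ℝ) : ℝ :=
  Real.log (P a b x) - r * Real.log (Real.log x)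

theorem loglog_incr : Tendsto (fun n : ℕ => Real.log (Real.log ((n : ℝ) + 1)) -
    Real.log (Real.log n)) atTop (𝓝 0) := by
  have h1 := Real.tendsto_log_nat_add_one_sub_log
  refine squeeze_zero' ?_ ?_ h1
  · filter_upwards [eventually_ge_atTop 3] with n hn
    have hn3 : (3 : ℝ) ≤ n := by exact_mod_cast hn
    have e1 : 0 < Real.log n := Real.log_pos (by linarith)
    have e2 : Real.log n ≤ Real.log ((n : ℝ) + 1) := Real.log_le_log (by linarith) (by linarith)
    have := Real.log_le_log e1 e2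
    linarith
  · filter_upwards [eventually_ge_atTop 3] with n hn
    have hn3 : (3 : ℝ) ≤ n := by exact_mod_cast hn
    have e1 : 1 ≤ Real.log n := by
      rw [Real.le_log_iff_exp_le (by linarith)]
      have := Real.exp_one_lt_d9
      linarith
    have e2 : Real.log n ≤ Real.log ((n : ℝ) + 1) := Real.log_le_log (by linarith) (by linarith)
    have e3 : 0 < Real.log n := by linarith
    rw [← Real.log_div (by linarith) (by linarith)]
    have e4 := Real.log_le_sub_one_of_pos
      (show 0 < Real.log ((n : ℝ) + 1) / Real.log n from div_pos (by linarith) e3)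
    refine e4.trans ?_
    have e5 : Real.log ((n : ℝ) + 1) / Real.log n - 1 =
        (Real.log ((n : ℝ) + 1) - Real.log n) / Real.log n := by
      field_simp
    rw [e5]
    exact div_le_self (by linarith) e1

theorem P_succ (n : ℕ) : P a b ((n : ℝ) + 1) =
    P a b n * (if Good a b (n + 1) then ((numPoints a b (n + 1) : ℝ) / ((n + 1 : ℕ) : ℝ)) else 1) := by
  unfold P
  have e1 : ⌊((n : ℝ) + 1)⌋₊ = n + 1 := by
    have : ((n : ℝ) + 1) = ((n + 1 : ℕ) : ℝ) := by push_cast; ring
    rw [this, Nat.floor_natCast]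
  rw [e1, Nat.floor_natCast, Finset.range_add_one (n := n + 1), Finset.filter_insert]
  split_ifs with h
  · rw [Finset.prod_insert (by simp), mul_comm]
  · rw [mul_one]

theorem factor_tendsto : Tendsto (fun n : ℕ =>
    (if Good a b (n + 1) then ((numPoints a b (n + 1) : ℝ) / ((n + 1 : ℕ) : ℝ)) else 1)) atTop
    (𝓝 1) := by
  have h1 : Tendsto (fun n : ℕ => 3 / Real.sqrt ((n + 1 : ℕ) : ℝ)) atTop (𝓝 0) := by
    refine Tendsto.const_div_atTop ?_ 3
    refine Real.tendsto_sqrt_atTop.comp ?_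
    exact tendsto_natCast_atTop_atTop.comp (tendsto_add_atTop_nat 1)
  rw [tendsto_iff_norm_sub_tendsto_zero]
  refine squeeze_zero' (Eventually.of_forall fun n => norm_nonneg _) ?_ h1
  filter_upwards [eventually_ge_atTop 5] with n hn
  split_ifs with h
  · have hs := Pool.Agent.W263.BSD.hasse (a := a) (b := b) h (by omega)
    have e0 : (0 : ℝ) < ((n + 1 : ℕ) : ℝ) := by positivity
    have e1 : (1 : ℝ) ≤ Real.sqrt ((n + 1 : ℕ) : ℝ) := by
      rw [show (1 : ℝ) = Real.sqrt 1 by simp]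
      exact Real.sqrt_le_sqrt (by push_cast; linarith [(Nat.cast_nonneg n : (0 : ℝ) ≤ n)])
    have e2 : Real.sqrt ((n + 1 : ℕ) : ℝ) * Real.sqrt ((n + 1 : ℕ) : ℝ) = ((n + 1 : ℕ) : ℝ) :=
      Real.mul_self_sqrt e0.le
    have e3 : (numPoints a b (n + 1) : ℝ) =
        (Pool.Agent.W263.BSD.pointCount a b (n + 1) : ℝ) + 1 := by
      unfold numPoints Pool.Agent.W263.BSD.pointCount
      push_cast
      rfl
    rw [Real.norm_eq_abs, e3]
    have e4 : ((Pool.Agent.W263.BSD.pointCount a b (n + 1) : ℝ) + 1) / ((n + 1 : ℕ) : ℝ) - 1 =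
        (1 - (((n + 1 : ℕ) : ℝ) - Pool.Agent.W263.BSD.pointCount a b (n + 1))) /
          ((n + 1 : ℕ) : ℝ) := by
      field_simp
      ring
    rw [e4, abs_div, abs_of_pos e0, div_le_div_iff₀ e0 (by positivity)]
    have e5 : |1 - (((n + 1 : ℕ) : ℝ) - Pool.Agent.W263.BSD.pointCount a b (n + 1))| ≤
        3 * Real.sqrt ((n + 1 : ℕ) : ℝ) := by
      have e6 : |(((n + 1 : ℕ) : ℝ) - Pool.Agent.W263.BSD.pointCount a b (n + 1))| ≤
          2 * Real.sqrt ((n + 1 : ℕ) : ℝ) := hs
      have e7 := abs_le.mp e6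
      rw [abs_le]
      constructor <;> linarith
    nlinarith
  · rw [sub_self, norm_zero]
    positivity

theorem ll_incr (r : ℕ) : Tendsto (fun n : ℕ => ll a b r ((n + 1 : ℕ) : ℝ) - ll a b r (n : ℝ))
    atTop (𝓝 0) := by
  have h1 := (factor_tendsto (a := a) (b := b)).log one_ne_zero
  rw [Real.log_one] at h1
  have h2 := h1.sub (loglog_incr.const_mul (r : ℝ))
  rw [mul_zero, sub_zero] at h2
  refine h2.congr' ?_
  filter_upwards [eventually_ge_atTop 3] with n hn
  unfold ll
  have hne : (if Good a b (n + 1) then ((numPoints a b (n + 1) : ℝ) / ((n + 1 : ℕ) : ℝ)) else 1)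
      ≠ 0 := by
    have := P_pos (a := a) (b := b) ((n : ℝ) + 1)
    rw [P_succ] at this
    exact (pos_of_mul_pos_right this (P_pos _).le).ne'
  have e1 : ((n + 1 : ℕ) : ℝ) = (n : ℝ) + 1 := by push_cast; ring
  have e2 : P a b ((n + 1 : ℕ) : ℝ) = P a b n *
      (if Good a b (n + 1) then ((numPoints a b (n + 1) : ℝ) / ((n + 1 : ℕ) : ℝ)) else 1) := by
    simpa only [e1] using P_succ (a := a) (b := b) n
  rw [e2, Real.log_mul (P_pos _).ne' hne, e1]
  ring

theorem P_floor (x : ℝ) : P a b (⌊x⌋₊ : ℝ) = P a b x := by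
  unfold P
  rw [Nat.floor_natCast]

/-- comparison of `ll` at `x` and at its integral part -/
theorem ll_floor (r : ℕ) {x : ℝ} (hx : 3 ≤ x) :
    ll a b r x ≤ ll a b r (⌊x⌋₊ : ℝ) ∧
    ll a b r (⌊x⌋₊ : ℝ) ≤ ll a b r x + r * (Real.log (Real.log ((⌊x⌋₊ : ℝ) + 1)) -
      Real.log (Real.log (⌊x⌋₊ : ℝ))) := by
  have h1 : (3 : ℝ) ≤ ⌊x⌋₊ := by
    have : 3 ≤ ⌊x⌋₊ := Nat.le_floor (by exact_mod_cast hx)
    exact_mod_cast this
  have h2 : (⌊x⌋₊ : ℝ) ≤ x := Nat.floor_le (by linarith)
  have h3 : x ≤ (⌊x⌋₊ : ℝ) + 1 := (Nat.lt_floor_add_one x).le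
  have h4 : 0 < Real.log (⌊x⌋₊ : ℝ) := Real.log_pos (by linarith)
  have h5 := Real.log_le_log h4 (Real.log_le_log (by linarith) h2)
  have h6 := Real.log_le_log (Real.log_pos (show 1 < x by linarith))
    (Real.log_le_log (by linarith) h3)
  unfold ll
  rw [P_floor]
  have hr : (0 : ℝ) ≤ r := Nat.cast_nonneg r
  constructor
  · nlinarith
  · nlinarith

/-- **Intermediate values.** -/
theorem cluster_ll (r : ℕ) {c : ℝ} (h1 : ∀ ε > 0, ∃ᶠ x : ℝ in atTop, ll a b r x < c + ε)
    (h2 : ∀ ε > 0, ∃ᶠ x : ℝ in atTop, c - ε < ll a b r x) {ε : ℝ} (hε : 0 < ε) :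
    ∃ᶠ x : ℝ in atTop, |ll a b r x - c| < ε := by
  have hfl : Tendsto (fun x : ℝ => ⌊x⌋₊) atTop atTop := tendsto_nat_floor_atTop
  have hdl : ∀ ε > 0, ∀ᶠ x : ℝ in atTop, r * (Real.log (Real.log ((⌊x⌋₊ : ℝ) + 1)) -
      Real.log (Real.log (⌊x⌋₊ : ℝ))) < ε := by
    intro ε hε
    have h3 := (loglog_incr.const_mul (r : ℝ)).comp hfl
    rw [mul_zero] at h3
    exact h3.eventually (gt_mem_nhds hε)
  have key := cluster_of_freq (h := fun n : ℕ => ll a b r (n : ℝ)) (c := c)
    (by simpa using ll_incr (a := a) (b := b) r) ?_ ?_ hε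
  · exact tendsto_natCast_atTop_atTop.frequently (p := fun x : ℝ => |ll a b r x - c| < ε) key
  · intro δ hδ
    refine hfl.frequently (p := fun n : ℕ => ll a b r (n : ℝ) < c + δ) ?_
    refine ((h1 (δ / 2) (half_pos hδ)).and_eventually ((hdl (δ / 2) (half_pos hδ)).and
      (eventually_ge_atTop 3))).mono fun x hx => ?_
    have := (ll_floor (a := a) (b := b) r hx.2.2).2
    linarith [hx.1, hx.2.1]
  · intro δ hδ
    refine hfl.frequently (p := fun n : ℕ => c - δ < ll a b r (n : ℝ)) ?_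
    refine ((h2 δ hδ).and_eventually (eventually_ge_atTop 3)).mono fun x hx => ?_
    have := (ll_floor (a := a) (b := b) r hx.2).1
    linarith [hx.1]

/-! ### Passing between `g` and its logarithm -/

theorem exp_ll (r : ℕ) {x : ℝ} (hx : 3 ≤ x) :
    Real.exp (ll a b r x) = P a b x / (Real.log x) ^ r := by
  have h1 : 0 < Real.log x := Real.log_pos (by linarith)
  unfold ll
  rw [Real.exp_sub, Real.exp_log (P_pos _), ← Real.log_pow, Real.exp_log (pow_pos h1 r)]

theorem mapCluster_iff (r : ℕ) {c : ℝ} (hc : 0 < c) :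
    MapClusterPt c atTop (fun x : ℝ => P a b x / (Real.log x) ^ r) ↔
      (∀ ε : ℝ, 0 < ε → ∃ᶠ x : ℝ in atTop, P a b x / (Real.log x) ^ r < c + ε) ∧
      (∀ ε : ℝ, 0 < ε → ∃ᶠ x : ℝ in atTop, c - ε < P a b x / (Real.log x) ^ r) := by
  constructor
  · intro h
    constructor
    · intro ε hε
      exact h.frequently (gt_mem_nhds (by linarith))
    · intro ε hε
      exact h.frequently (lt_mem_nhds (by linarith))
  · rintro ⟨h1, h2⟩
    have h3 : ∀ ε > 0, ∃ᶠ x : ℝ in atTop, ll a b r x < Real.log c + ε := by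
      intro ε hε
      have e1 : 0 < c * Real.exp ε - c := by
        have := Real.add_one_lt_exp hε.ne'
        nlinarith
      refine ((h1 _ e1).and_eventually (eventually_ge_atTop 3)).mono fun x hx => ?_
      have e2 := hx.1
      rw [← exp_ll r hx.2, add_sub_cancel] at e2
      have e3 := Real.log_lt_log (Real.exp_pos _) e2
      rwa [Real.log_exp, Real.log_mul hc.ne' (Real.exp_pos _).ne', Real.log_exp] at e3
    have h4 : ∀ ε > 0, ∃ᶠ x : ℝ in atTop, Real.log c - ε < ll a b r x := by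
      intro ε hε
      have e1 : 0 < c - c * Real.exp (-ε) := by
        have : Real.exp (-ε) < 1 := by rw [Real.exp_lt_one_iff]; linarith
        nlinarith
      refine ((h2 _ e1).and_eventually (eventually_ge_atTop 3)).mono fun x hx => ?_
      have e2 := hx.1
      rw [← exp_ll r hx.2, sub_sub_cancel] at e2
      have e3 := Real.log_lt_log (by positivity) e2
      rw [Real.log_exp, Real.log_mul hc.ne' (Real.exp_pos _).ne', Real.log_exp] at e3
      linarith
    have h5 : MapClusterPt (Real.log c) atTop (ll a b r) := by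
      rw [mapClusterPt_iff_frequently]
      intro s hs
      obtain ⟨ε, hε, hb⟩ := Metric.mem_nhds_iff.mp hs
      refine (cluster_ll r h3 h4 hε).mono fun x hx => hb ?_
      rw [Metric.mem_ball, Real.dist_eq]
      exact hx
    have h6 := h5.continuousAt_comp (f := Real.exp) Real.continuous_exp.continuousAt
    rw [Real.exp_log hc] at h6
    rw [mapClusterPt_iff_frequently] at h6 ⊢
    intro s hs
    refine ((h6 s hs).and_eventually (eventually_ge_atTop 3)).mono fun x hx => ?_
    rw [← exp_ll r hx.2]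
    exact hx.1

/-! ### The brackets for the original product -/

/-- the corrected product and the original one -/
theorem star_ll (r : ℕ) {x : ℝ} (hx : 3 ≤ x) :
    Real.log (Pool.Agent.W263.BSD.bsdStar a b x / (Real.log x) ^ r) = ll a b r x +
      ∑ p ∈ (Finset.range (⌊x⌋₊ + 1)).filter
        (fun p => Pool.Agent.W263.BSD.GoodPrime a b p ∧ √x < p),
        (((p : ℝ) - Pool.Agent.W263.BSD.pointCount a b p) ^ 2 - 2 * p) / (2 * (p : ℝ) ^ 2) := by
  have h1 : 0 < Real.log x := Real.log_pos (by linarith)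
  unfold Pool.Agent.W263.BSD.bsdStar ll
  rw [Real.log_div (mul_pos (Pool.Agent.W263.BSD.bsdProduct_pos _) (Real.exp_pos _)).ne'
    (pow_pos h1 r).ne', Real.log_mul (Pool.Agent.W263.BSD.bsdProduct_pos _).ne'
    (Real.exp_pos _).ne', Real.log_exp, Real.log_pow, P_eq]
  ring

theorem T_eq {F : ℂ → ℂ} {r : ℕ} : T F r = √2 * (Real.exp (r * Real.eulerMascheroniConstant) /
    Pool.Agent.W263.BSD.leadAbs F r) := by
  unfold T Pool.Agent.W263.BSD.leadAbs
  have : (r.factorial : ℝ) ≠ 0 := by exact_mod_cast r.factorial_ne_zero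
  by_cases h : ‖iteratedDeriv r F 1‖ = 0
  · rw [h]; simp
  · field_simp

theorem T_pos {F : ℂ → ℂ} {r : ℕ} (h : 0 < Pool.Agent.W263.BSD.leadAbs F r) : 0 < T F r := by
  rw [T_eq]
  positivity

theorem upper_ll (hΔ : 4 * a ^ 3 + 27 * b ^ 2 ≠ 0) {F : ℂ → ℂ}
    (hF : Pool.Agent.W263.BSD.IsLSeries a b F) {r : ℕ} (hr : analyticOrderAt F 1 = r)
    (hrs : Tendsto (Pool.Agent.W263.BSD.rsSum a b) atTop (𝓝 0)) {ε : ℝ} (hε : 0 < ε) :
    ∃ᶠ x : ℝ in atTop, Real.log (T F r) - ε < ll a b r x := by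
  obtain ⟨hpos, _⟩ := Pool.Agent.W263.BSD.lead_limit hF.1 hr
  set T0 := Real.exp (r * Real.eulerMascheroniConstant) / Pool.Agent.W263.BSD.leadAbs F r with hT0
  have hT0p : 0 < T0 := by positivity
  have e1 : 0 < T0 * (1 - Real.exp (-(ε / 2))) := by
    have : Real.exp (-(ε / 2)) < 1 := by rw [Real.exp_lt_one_iff]; linarith
    exact mul_pos hT0p (by linarith)
  have h1 := Pool.Agent.W263.BSD.bracket_up hF hr e1
  have h2 := (Pool.Agent.W263.BSD.corr_tendsto hΔ hrs).eventually
    (gt_mem_nhds (show -(Real.log 2 / 2) < -(Real.log 2 / 2) + ε / 2 by linarith))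
  refine (h1.and_eventually (h2.and (eventually_ge_atTop 3))).mono fun x hx => ?_
  obtain ⟨h3, h4, h5⟩ := hx
  have hl : 0 < Real.log x := Real.log_pos (by linarith)
  rw [← hT0] at h3
  have h6 : T0 * Real.exp (-(ε / 2)) < Pool.Agent.W263.BSD.bsdStar a b x / (Real.log x) ^ r := by
    rw [lt_div_iff₀ (pow_pos hl r)]
    refine lt_of_eq_of_lt ?_ h3
    ring
  have h7 := Real.log_lt_log (mul_pos hT0p (Real.exp_pos _)) h6
  rw [Real.log_mul hT0p.ne' (Real.exp_pos _).ne', Real.log_exp, star_ll r h5] at h7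
  rw [T_eq, ← hT0, Real.log_mul (by positivity) hT0p.ne', Real.log_sqrt (by norm_num)]
  linarith

theorem lower_ll (hΔ : 4 * a ^ 3 + 27 * b ^ 2 ≠ 0) {F : ℂ → ℂ}
    (hF : Pool.Agent.W263.BSD.IsLSeries a b F) {r : ℕ} (hr : analyticOrderAt F 1 = r)
    (hne : ∀ s : ℝ, 1 < s → F s ≠ 0)
    (hrs : Tendsto (Pool.Agent.W263.BSD.rsSum a b) atTop (𝓝 0)) {ε : ℝ} (hε : 0 < ε) :
    ∃ᶠ x : ℝ in atTop, ll a b r x < Real.log (T F r) + ε := by
  obtain ⟨hpos, _⟩ := Pool.Agent.W263.BSD.lead_limit hF.1 hr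
  set T0 := Real.exp (r * Real.eulerMascheroniConstant) / Pool.Agent.W263.BSD.leadAbs F r with hT0
  have hT0p : 0 < T0 := by positivity
  have e1 : 0 < T0 * (Real.exp (ε / 2) - 1) := by
    have : 1 < Real.exp (ε / 2) := by rw [Real.one_lt_exp_iff]; linarith
    exact mul_pos hT0p (by linarith)
  have h1 := Pool.Agent.W263.BSD.bracket_down hF hr hne e1
  have h2 := (Pool.Agent.W263.BSD.corr_tendsto hΔ hrs).eventually
    (lt_mem_nhds (show -(Real.log 2 / 2) - ε / 2 < -(Real.log 2 / 2) by linarith))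
  refine (h1.and_eventually (h2.and (eventually_ge_atTop 3))).mono fun x hx => ?_
  obtain ⟨h3, h4, h5⟩ := hx
  have hl : 0 < Real.log x := Real.log_pos (by linarith)
  rw [← hT0] at h3
  have h6 : Pool.Agent.W263.BSD.bsdStar a b x / (Real.log x) ^ r < T0 * Real.exp (ε / 2) := by
    rw [div_lt_iff₀ (pow_pos hl r)]
    refine lt_of_lt_of_eq h3 ?_
    ring
  have hsp : 0 < Pool.Agent.W263.BSD.bsdStar a b x / (Real.log x) ^ r :=
    div_pos (mul_pos (Pool.Agent.W263.BSD.bsdProduct_pos _) (Real.exp_pos _)) (pow_pos hl r)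
  have h7 := Real.log_lt_log hsp h6
  rw [Real.log_mul hT0p.ne' (Real.exp_pos _).ne', Real.log_exp, star_ll r h5] at h7
  rw [T_eq, ← hT0, Real.log_mul (by positivity) hT0p.ne', Real.log_sqrt (by norm_num)]
  linarith

/-! ### Zeros to the right of `1` -/

theorem upper_zero {F : ℂ → ℂ} (hF : Pool.Agent.W263.BSD.IsLSeries a b F) (r : ℕ) {s : ℂ}
    (hs : 1 < s.re) (h0 : F s = 0) (M : ℝ) : ∃ᶠ x : ℝ in atTop, M < ll a b r x := by
  by_contra hcon
  rw [not_frequently] at hcon
  refine Pool.Agent.W263.BSD.no_zeros_of_order (C := Real.exp M) (r := r) hF ?_ hs h0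
  filter_upwards [hcon, eventually_ge_atTop 3] with x h1 h2
  have hl : 0 < Real.log x := Real.log_pos (by linarith)
  have h3 := Real.exp_le_exp.mpr (not_lt.mp h1)
  rw [exp_ll r h2, div_le_iff₀ (pow_pos hl r), P_eq] at h3
  exact h3

theorem lower_zero {F : ℂ → ℂ} (hF : Pool.Agent.W263.BSD.IsLSeries a b F)
    (hne : ∀ s : ℝ, 1 < s → F s ≠ 0) (r : ℕ) {s : ℂ}
    (hs : 1 < s.re) (h0 : F s = 0) (M : ℝ) : ∃ᶠ x : ℝ in atTop, ll a b r x < M := by
  by_contra hcon
  rw [not_frequently] at hcon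
  obtain ⟨B, hB0, hB⟩ := Pool.Agent.W263.BSD.log_approx a b
  have hconv : ∀ w > 0, Pool.Agent.W263.BSD.LInt
      (Pool.Agent.W263.BSD.aak (Pool.Agent.W263.BSD.SS a b) (Pool.Agent.W263.BSD.Ap a b) 0) w := by
    refine (Pool.Agent.W263.BSD.data 0 hF).conv_of_lower (Pool.Agent.W263.BSD.hloc a b 0)
      (Pool.Agent.W263.BSD.phi_ne hne) fun δ hδ => ?_
    have h1 := Real.tendsto_exp_atTop.eventually hcon
    have h2 : Tendsto (fun u : ℝ => Real.exp (δ * u)) atTop atTop :=
      Real.tendsto_exp_atTop.comp (tendsto_id.const_mul_atTop hδ)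
    filter_upwards [h1, h2.eventually (eventually_ge_atTop (|M| + B)), eventually_ge_atTop 1]
      with u h3 h4 h5
    have h6 := (abs_le.mp (hB u (by linarith))).2
    unfold ll at h3
    rw [not_lt, Real.log_exp, P_eq] at h3
    have h7 : 0 ≤ (r : ℝ) * Real.log u := mul_nonneg (Nat.cast_nonneg r) (Real.log_nonneg h5)
    have h8 := neg_abs_le M
    linarith
  have h1 := (Pool.Agent.W263.BSD.data 0 hF).nonvanish hconv (z := s - 1) (by simp; linarith)
  unfold Pool.Agent.W263.BSD.PhiF at h1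
  rw [add_sub_cancel] at h1
  exact left_ne_zero_of_mul h1 h0

theorem cluster_unique {h : ℝ → ℝ} {c C : ℝ} (h1 : MapClusterPt c atTop h)
    (h2 : Tendsto h atTop (𝓝 C)) : c = C := by
  have h3 : (𝓝 c ⊓ 𝓝 C).NeBot := Filter.NeBot.mono h1 (inf_le_inf_left _ h2)
  exact eq_of_nhds_neBot h3

theorem g_eq (r : ℕ) {x : ℝ} (hx : 3 ≤ x) : g a b r x = Real.exp (ll a b r x) := (exp_ll r hx).symm

theorem freq_lt (r : ℕ) {c : ℝ} (hc : 0 < c) (h : ∃ᶠ x : ℝ in atTop, ll a b r x < Real.log c) :
    ∃ᶠ x : ℝ in atTop, g a b r x < c := by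
  refine (h.and_eventually (eventually_ge_atTop 3)).mono fun x hx => ?_
  rw [g_eq r hx.2, ← Real.exp_log hc]
  exact Real.exp_lt_exp.mpr hx.1

theorem freq_gt (r : ℕ) {c : ℝ} (hc : 0 < c) (h : ∃ᶠ x : ℝ in atTop, Real.log c < ll a b r x) :
    ∃ᶠ x : ℝ in atTop, c < g a b r x := by
  refine (h.and_eventually (eventually_ge_atTop 3)).mono fun x hx => ?_
  rw [g_eq r hx.2, ← Real.exp_log hc]
  exact Real.exp_lt_exp.mpr hx.1

/-- **The limit points of `P(x) / (log x)^r`.**

`E : y² = x³ + a x + b`, `F` the entire continuation of its incomplete `L`-series, `f` its newform.  The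
order `r` of `F` at `1` is finite; `g(x) = P(x)/(log x)^r` and `T = √2 e^{rγ} r! / |F^{(r)}(1)| > 0`.

1. `c > 0` is a limit point of `g` iff it lies between the lower and the upper limit of `g`.
2. The upper limit of `g` is at least `T`.
3. Suppose that `F` has no REAL zeros `s > 1`.  Then
   * `T` is a limit point of `g`;
   * `g` converges to a non-zero number (the original conjecture of Birch and Swinnerton-Dyer for `E`)
     iff `T` is the only positive limit point of `g`;
   * if `F` has a zero `s` with `Re s > 1`, then every `c ≥ 0` is a limit point of `g`, and `g` is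
     unbounded. -/
theorem result (a b : ℤ) (hΔ : 4 * a ^ 3 + 27 * b ^ 2 ≠ 0) (F : ℂ → ℂ) (hF : IsLSeries a b F)
    (N : ℕ) [NeZero N] (f : CuspForm (Gamma0 N : Subgroup (GL (Fin 2) ℝ)) 2)
    (hf : IsNewformOf a b N f) :
    ∃ r : ℕ, analyticOrderAt F 1 = r ∧ 0 < T F r ∧
      (∀ c : ℝ, 0 < c → (MapClusterPt c atTop (g a b r) ↔
        (∀ ε : ℝ, 0 < ε → ∃ᶠ x : ℝ in atTop, g a b r x < c + ε) ∧
        (∀ ε : ℝ, 0 < ε → ∃ᶠ x : ℝ in atTop, c - ε < g a b r x))) ∧
      (∀ ε : ℝ, 0 < ε → ∃ᶠ x : ℝ in atTop, T F r - ε < g a b r x) ∧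
      ((∀ s : ℝ, 1 < s → F s ≠ 0) →
        MapClusterPt (T F r) atTop (g a b r) ∧
        ((∃ C : ℝ, C ≠ 0 ∧ Tendsto (g a b r) atTop (𝓝 C)) ↔
          ∀ c : ℝ, 0 < c → MapClusterPt c atTop (g a b r) → c = T F r) ∧
        ((∃ s : ℂ, 1 < s.re ∧ F s = 0) →
          (∀ c : ℝ, 0 ≤ c → MapClusterPt c atTop (g a b r)) ∧
          ∀ M : ℝ, ∃ᶠ x : ℝ in atTop, M < g a b r x)) := by
  have hF' := isLSeries hF
  obtain ⟨r, hr⟩ := Pool.Agent.W263.BSD.order_finite hF'
  obtain ⟨hpos, _⟩ := Pool.Agent.W263.BSD.lead_limit hF'.1 hr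
  have hT : 0 < T F r := T_pos hpos
  have hrs := rs hΔ hf
  -- the upper limit is at least `T`
  have hup : ∀ ε : ℝ, 0 < ε → ∃ᶠ x : ℝ in atTop, T F r - ε < g a b r x := by
    intro ε hε
    set δ : ℝ := Real.log (T F r) - Real.log (max (T F r - ε) (T F r / 2)) with hδ
    have h1 : 0 < max (T F r - ε) (T F r / 2) := lt_max_of_lt_right (by linarith)
    have h2 : max (T F r - ε) (T F r / 2) < T F r := max_lt (by linarith) (by linarith)
    have h3 : 0 < δ := by
      have := Real.log_lt_log h1 h2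
      rw [hδ]; linarith
    have h4 := upper_ll hΔ hF' hr hrs h3
    rw [hδ, sub_sub_cancel] at h4
    exact (freq_gt r h1 h4).mono fun x hx => lt_of_le_of_lt (le_max_left _ _) hx
  refine ⟨r, hr, hT, fun c hc => mapCluster_iff r hc, hup, fun hne => ?_⟩
  have hlo : ∀ ε : ℝ, 0 < ε → ∃ᶠ x : ℝ in atTop, g a b r x < T F r + ε := by
    intro ε hε
    have h3 : 0 < Real.log (T F r + ε) - Real.log (T F r) := by
      have := Real.log_lt_log hT (show T F r < T F r + ε by linarith)
      linarith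
    have h4 := lower_ll hΔ hF' hr hne hrs h3
    rw [add_sub_cancel] at h4
    exact freq_lt r (by linarith) h4
  have hTc : MapClusterPt (T F r) atTop (g a b r) := (mapCluster_iff r hT).mpr ⟨hlo, hup⟩
  refine ⟨hTc, ⟨?_, ?_⟩, ?_⟩
  · rintro ⟨C, _, hC⟩ c hc hcl
    rw [cluster_unique hTc hC, cluster_unique hcl hC]
  · intro h
    refine ⟨T F r, hT.ne', ?_⟩
    rw [Metric.tendsto_nhds]
    intro ε hε
    have hA : ∀ᶠ x : ℝ in atTop, g a b r x < T F r + ε := by
      by_contra hcon
      rw [not_eventually] at hcon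
      have h1 : MapClusterPt (T F r + ε) atTop (g a b r) := by
        refine (mapCluster_iff r (by linarith)).mpr ⟨fun δ hδ => ?_, fun δ hδ => ?_⟩
        · exact (hlo ε hε).mono fun x hx => by
            have : g a b r x < T F r + ε := hx
            show g a b r x < T F r + ε + δ
            linarith
        · exact hcon.mono fun x hx => by
            have := not_lt.mp hx
            show T F r + ε - δ < g a b r x
            linarith
      have := h _ (by linarith) h1
      linarith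
    have hB : ∀ᶠ x : ℝ in atTop, T F r - ε < g a b r x := by
      by_contra hcon
      rw [not_eventually] at hcon
      set c : ℝ := max (T F r - ε) (T F r / 2) with hc
      have hc0 : 0 < c := lt_max_of_lt_right (by linarith)
      have hcT : c < T F r := max_lt (by linarith) (by linarith)
      have h1 : MapClusterPt c atTop (g a b r) := by
        refine (mapCluster_iff r hc0).mpr ⟨fun δ hδ => ?_, fun δ hδ => ?_⟩
        · exact hcon.mono fun x hx => by
            have h2 := not_lt.mp hx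
            have h3 : T F r - ε ≤ c := le_max_left _ _
            show g a b r x < c + δ
            linarith
        · exact (hup (T F r - c) (by linarith)).mono fun x hx => by
            show c - δ < g a b r x
            linarith
      have := h _ hc0 h1
      linarith
    filter_upwards [hA, hB] with x h1 h2
    rw [Real.dist_eq, abs_lt]
    constructor <;> linarith
  · rintro ⟨s, hs, h0⟩
    have hgt : ∀ M : ℝ, ∃ᶠ x : ℝ in atTop, M < g a b r x := by
      intro M
      refine (freq_gt r (show 0 < |M| + 1 by positivity)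
        (upper_zero hF' r hs h0 _)).mono fun x hx => ?_
      have := le_abs_self M
      linarith
    have hlt : ∀ c : ℝ, 0 < c → ∃ᶠ x : ℝ in atTop, g a b r x < c := fun c hc =>
      freq_lt r hc (lower_zero hF' hne r hs h0 _)
    refine ⟨fun c hc => ?_, hgt⟩
    rcases hc.eq_or_lt with h1 | h1
    · rw [← h1, mapClusterPt_iff_frequently]
      intro S hS
      obtain ⟨ε, hε, hb⟩ := Metric.mem_nhds_iff.mp hS
      refine ((hlt ε hε).and_eventually (eventually_ge_atTop 3)).mono fun x hx => hb ?_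
      rw [Metric.mem_ball, Real.dist_eq, sub_zero, g_eq r hx.2, abs_of_pos (Real.exp_pos _),
        ← g_eq r hx.2]
      exact hx.1
    · exact (mapCluster_iff r h1).mpr ⟨fun ε hε => hlt _ (by linarith), fun ε hε => hgt _⟩

end Pool.Agent.Results.MP_3283e1_nt.LimitSet
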