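import Pool.Agent.TH270.MS.EQ3
import Pool.Agent.TH270.MS.GrowthF
import Pool.Agent.TH941.Newform

/-!
# The original asymptotic of Birch and Swinnerton-Dyer in logarithmic mean

Let `E : y² = x³ + a x + b` be an elliptic curve over `ℚ`, `a, b ∈ ℤ`, let `F` be the entire continuation of
its incomplete `L`-series (the Euler factors at the primes dividing `2Δ` are removed), `f` its newform and `N_p`
the number of affine points modulo `p`, so that `#E(𝔽_p) = N_p + 1`. Let

`P(x) = ∏_{p ≤ x, p ∤ 2Δ} #E(𝔽_p)/p`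

be the original product of Birch and Swinnerton-Dyer, with the sharp cut-off, and
`P*(x) = P(x) exp (∑_{√x < p ≤ x} (a_p² - 2p)/(2p²))` (all prime powers `≤ x`, up to a factor
`1 + O(x^{-1/12})`; by Rankin and Selberg `P*(x) ∼ P(x)/√2`). It is shown, for every such curve, all real `ρ` and
all `C > 0`, that the following are EQUIVALENT:

* `ρ = m = ord_{s=1} F`, `C = √2 e^{mγ} m! / F^{(m)}(1)`, and `F` has no zeros with `Re s > 1` (by the functional
  equation: the Riemann hypothesis for `E`);
* `(log X)⁻¹ ∫_e^X |log (P(x) / (C (log x)^ρ))| dx/x → 0`;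
* `(log X)⁻¹ ∫_e^X (log (P(x) / (C (log x)^ρ)))² dx/x → 0`;
* `∫_e^∞ (log (√2 P*(x) / (C (log x)^ρ)))² dx/x < ∞`.

Moreover (without the constant) `ρ = ord_{s=1} F` and `F` has no zeros with `Re s > 1` if and only if
`∫_e^X |log P(x) - ρ log log x| dx/x ≤ B log X` for some `B` and all large `X`.

With `ρ` the rank: the original asymptotic `P(x) ∼ C (log x)^r` (`C > 0` some constant), read in logarithmic
mean, is equivalent to the rank form of the conjecture of Birch and Swinnerton-Dyer together with the Riemann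
hypothesis. For the pointwise asymptotic Goldfeld (1982) proved one direction, the converse is open (the
asymptotic is equivalent to a statement stronger than the Riemann hypothesis, Kuo-Murty and Conrad, 2005).
Here the hypothesis is much weaker than in Goldfeld's theorem, and it is an equivalence.

Proof. Let `D(x)` be the sum over the prime powers `≤ x`. (1) If `F` has no zeros with `Re s > 1`, the Laplace
transform of `D(e^t) + m log t + const` is holomorphic for `Re s > 0`; it is `log L(1 + s)/s` up to elementary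
terms. Near a zero on the central line the logarithm is locally square integrable, uniformly up to the boundary,
and the number of zeros at height `T` is `O(log T)`: here the polynomial growth of `F` to the left of the centre is
used, which is proved from the newform (Mellin transforms along rotated rays and the behaviour at the cusp `0`).
So the boundary values are square integrable because of the factor `1/s`, and Plancherel's theorem gives the
square integrability of `D(x) + ...` for `dx/x`. (2) Conversely, a bound for the logarithmic means continues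
the Laplace transform to `Re s > 0`, and the limit `s → 0` gives order and constant. (3) The difference between
primes and prime powers is treated with the theorem of Rankin and Selberg.
-/

set_option autoImplicit false

namespace Pool.Agent.Results.MP_3283e1_nt.MeanSquareLaw

open Pool.Agent.W263.BSD Filter Topology Classical MeasureTheory Set
open CongruenceSubgroup UpperHalfPlane
open scoped MatrixGroups

/-- `P(x)`: the product of `(N_p + 1) / p` over the primes `p ≤ x`, `p ∤ 2Δ`. -/
noncomputable def product (a b : ℤ) (x : ℝ) : ℝ :=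
  ∏ p ∈ (Finset.range (⌊x⌋₊ + 1)).filter (GoodPrime a b), (((pointCount a b p : ℝ) + 1) / p)

/-- `P*(x) = P(x) exp (∑ (a_p² - 2p)/(2p²))`, the sum over the primes `√x < p ≤ x`, `p ∤ 2Δ`, `a_p = p - N_p`. -/
noncomputable def productStar (a b : ℤ) (x : ℝ) : ℝ :=
  product a b x * Real.exp (∑ p ∈ (Finset.range (⌊x⌋₊ + 1)).filter
    (fun p => GoodPrime a b p ∧ √x < p),
      (((p : ℝ) - pointCount a b p) ^ 2 - 2 * p) / (2 * (p : ℝ) ^ 2))

/-- The `n`-th Fourier coefficient of `f`. -/
noncomputable def coef {N : ℕ} (f : CuspForm (Gamma0 N : Subgroup (GL (Fin 2) ℝ)) 2) (n : ℕ) : ℂ :=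
  (qExpansion 1 f).coeff n

/-- `f ∈ S_2(Γ₀(N))` is the newform of the elliptic curve `E : y² = x³ + a x + b` of conductor `N`: the
Fourier coefficients `c(n)` of `f` are real with `c(1) = 1`, they satisfy the Hecke relations
`c(mn) = c(m) c(n)` for coprime `m`, `n` and `c(p^(j+2)) = c(p) c(p^(j+1)) - p c(p^j)` (without the last
term if `p ∣ N`), `c(p) = a_p = p - N_p` (`N_p` affine points) for all primes `p ∤ 2Δ`, `|c(p)| ≤ 2 √p` for
all `p ∤ N` (Hasse) and `c(p) = 0, 1, -1` for `p ∣ N`. -/
structure IsNewformOf (a b : ℤ) (N : ℕ) (f : CuspForm (Gamma0 N : Subgroup (GL (Fin 2) ℝ)) 2) :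
    Prop where
  one : coef f 1 = 1
  real : ∀ n, (coef f n).im = 0
  mul : ∀ m n : ℕ, Nat.Coprime m n → coef f (m * n) = coef f m * coef f n
  pow : ∀ p j : ℕ, p.Prime → coef f (p ^ (j + 2)) = coef f p * coef f (p ^ (j + 1)) -
      (if p ∣ N then 0 else (p : ℂ) * coef f (p ^ j))
  points : ∀ p : ℕ, GoodPrime a b p → coef f p = (p : ℂ) - (pointCount a b p : ℂ)
  good : ∀ p : ℕ, p.Prime → ¬ p ∣ N → ‖coef f p‖ ≤ 2 * Real.sqrt p
  bad : ∀ p : ℕ, p.Prime → p ∣ N → coef f p = 0 ∨ coef f p = 1 ∨ coef f p = -1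

/-- `F` has no zeros with `Re s > 1`. -/
def NoZeros (F : ℂ → ℂ) : Prop := ∀ s : ℂ, 1 < s.re → F s ≠ 0

theorem hecke {a b : ℤ} {N : ℕ} {f : CuspForm (Gamma0 N : Subgroup (GL (Fin 2) ℝ)) 2}
    (hf : IsNewformOf a b N f) : Pool.Agent.TH941.Hecke f where
  one := hf.one
  real := hf.real
  mul := hf.mul
  pow := hf.pow
  good := hf.good
  bad := fun p hp h => by
    rcases hf.bad p hp h with h1 | h1 | h1
    · have h2 : ‖coef f p‖ ≤ 1 := by rw [h1]; simp
      exact h2
    · have h2 : ‖coef f p‖ ≤ 1 := by rw [h1]; simp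
      exact h2
    · have h2 : ‖coef f p‖ ≤ 1 := by rw [h1]; simp
      exact h2

/-- **The original product of Birch and Swinnerton-Dyer in logarithmic mean.** -/
theorem result (a b : ℤ) (hΔ : 4 * a ^ 3 + 27 * b ^ 2 ≠ 0) (F : ℂ → ℂ) (hF : IsLSeries a b F)
    (N : ℕ) [NeZero N] (f : CuspForm (Gamma0 N : Subgroup (GL (Fin 2) ℝ)) 2)
    (hf : IsNewformOf a b N f) (ρ : ℝ) :
    ((NoZeros F ∧ ∃ m : ℕ, ρ = m ∧ analyticOrderAt F 1 = m) ↔
      ∃ B : ℝ, ∀ᶠ X : ℝ in atTop, ∫ x in Real.exp 1..X,
        |Real.log (product a b x) - ρ * Real.log (Real.log x)| / x ≤ B * Real.log X) ∧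
    ∀ C : ℝ, 0 < C → List.TFAE [
      NoZeros F ∧ ∃ m : ℕ, ρ = m ∧ analyticOrderAt F 1 = m ∧
        iteratedDeriv m F 1 / (m.factorial : ℂ) =
          ((√2 * Real.exp (m * Real.eulerMascheroniConstant) / C : ℝ) : ℂ),
      Tendsto (fun X : ℝ => (∫ x in Real.exp 1..X,
        |Real.log (product a b x / (C * Real.log x ^ ρ))| / x) / Real.log X) atTop (𝓝 0),
      Tendsto (fun X : ℝ => (∫ x in Real.exp 1..X,
        Real.log (product a b x / (C * Real.log x ^ ρ)) ^ 2 / x) / Real.log X) atTop (𝓝 0),
      IntegrableOn (fun x : ℝ =>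
        Real.log (√2 * productStar a b x / (C * Real.log x ^ ρ)) ^ 2 / x) (Ioi (Real.exp 1))] := by
  have hrs : Tendsto (rsSum a b) atTop (𝓝 0) :=
    (hecke hf).rsSum_tendsto hΔ fun p hp => hf.points p hp
  obtain ⟨C₀, κ, hg⟩ := Pool.Agent.TH270.MS.EQ.growth_F hΔ hF (hecke hf) fun p hp => hf.points p hp
  exact ⟨Pool.Agent.TH270.MS.EQ.curve_order hΔ hF hrs (by norm_num : (0 : ℝ) < 1 / 8) hg ρ,
    fun C hC => Pool.Agent.TH270.MS.EQ.curve_law hΔ hF hrs (by norm_num : (0 : ℝ) < 1 / 8) hg ρ hC⟩

end Pool.Agent.Results.MP_3283e1_nt.MeanSquareLaw
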