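import Pool.Agent.TH942.SL.CurveLim
import Pool.Agent.TH942.Lead
import Pool.Agent.TH941.Newform

/-!
# The original asymptotic of Birch and Swinnerton-Dyer with random cut-off

Let `C : y² = x³ + a x + b` be an elliptic curve over `ℚ`, `a, b ∈ ℤ`, let `F` be the entire continuation of
its incomplete `L`-series (the Euler factors at the primes dividing `2Δ` are removed), `f` its newform, `m` the
order of `F` at `1` and `N_p` the number of affine points modulo `p`, so that `#E(𝔽_p) = N_p + 1`.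

For `ρ > 1` let `w_ρ(u)`, `u > 0`, be the function `(2π)⁻¹ ∫ Re (exp (z - u z^(1/ρ)) / z) dt`, `z = 1 + i t`
(the probability that a stable subordinator of index `1/ρ` has not passed `1` at the time `u`; for `ρ = 2` it is
`erfc (u/2)`; for `ρ → 1` it tends to the indicator of `u < 1`), and

`Π_ρ(X) = ∏_{p ≤ exp ((log X)^ρ'), p ∤ 2Δ} (#E(𝔽_p)/p) ^ w_ρ(log p / log X)`,   `ρ' > ρ`.

It is shown, for every such curve, all `ρ' > ρ > 1` and every real `k`: `Π_ρ(X) ∼ A (log X)^k` for some
`A > 0` if and only if `k = m` and `F` has no zeros `s ≠ 1` in the sector `|arg (s - 1)| < π / (2ρ)`, and then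
`A = √2 e^{mγ/ρ} m! / F^{(m)}(1)` (`γ` is Euler's constant). Consequently `Π_ρ(X) ∼ A_ρ (log X)^k` for all
`ρ > 1` if and only if `k = m` and `F` has no zeros with `Re s > 1` (the Riemann hypothesis).

With `k` the rank this is the original asymptotic of Birch and Swinnerton-Dyer with the sharp cut-off `p ≤ X`
replaced by the random one: it is EQUIVALENT to the rank form of the conjecture and the Riemann hypothesis (a
zero-free sector, if `ρ` is fixed). For the sharp cut-off Goldfeld (1982) proved one direction, with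
`A = √2 e^{mγ} m! / F^{(m)}(1)`; the converse is open.

Proof. With `y = (log X)^ρ`, `α = 1/ρ`, `log Π_ρ(X)` is up to `o(1)` the integral
`(2πi)⁻¹ ∫ e^{zy} D(z^α) dz/z`, `D(s) = ∑ log ((N_p+1)/p) p^{-s}`, and `z^α` maps the half plane `Re z > 0` to the
sector. After an integration by parts the line of integration is moved to `Re z = 1/y`. Near `z = 0` the
integrand is compared with that of `-mα log z + κ`; the values of the corresponding integrals are
`mα (γ + log y) + κ`. The remainder tends to `0`: near `0` by the theorem of Rankin and Selberg (the second order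
terms of `D` tend to `(log 2)/2` along rays, this gives the factor `√2`), elsewhere by dominated convergence, the
zeros on the boundary of the sector being a null set. The converse is Laplace inversion and analytic
continuation.
-/

set_option autoImplicit false

namespace Pool.Agent.Results.MP_3283e1_nt.RandomCutoff

open Pool.Agent.W263.BSD Filter Topology Classical MeasureTheory Pool.Agent.TH942.SL
open CongruenceSubgroup UpperHalfPlane
open scoped MatrixGroups

/-- The weight `w_ρ(u) = (2π)⁻¹ ∫ Re (exp (z - u z^(1/ρ)) / z) dt`, `z = 1 + i t`. -/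
noncomputable def weight (ρ u : ℝ) : ℝ :=
  (2 * Real.pi)⁻¹ * ∫ t : ℝ, (Complex.exp ((1 + t * Complex.I) -
    u * (1 + t * Complex.I) ^ ((ρ⁻¹ : ℝ) : ℂ)) / (1 + t * Complex.I)).re

/-- `Π_ρ(X)`: the product over the primes `p ≤ exp ((log X)^ρ')`, `p ∤ 2Δ`, of the powers of `(N_p + 1) / p`
with exponents `w_ρ(log p / log X)`. -/
noncomputable def localProduct (a b : ℤ) (ρ ρ' X : ℝ) : ℝ :=
  ∏ p ∈ (Finset.range (⌊Real.exp (Real.log X ^ ρ')⌋₊ + 1)).filter (GoodPrime a b),
    (((pointCount a b p : ℝ) + 1) / p) ^ weight ρ (Real.log p / Real.log X)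

/-- There are no zeros `s ≠ 1` with `|arg (s - 1)| < π / (2ρ)`. -/
def ZeroFreeSector (F : ℂ → ℂ) (ρ : ℝ) : Prop :=
  ∀ s : ℂ, s ≠ 1 → |(s - 1).arg| < Real.pi / (2 * ρ) → F s ≠ 0

/-- The `n`-th Fourier coefficient of `f`. -/
noncomputable def coef {N : ℕ} (f : CuspForm (Gamma0 N : Subgroup (GL (Fin 2) ℝ)) 2) (n : ℕ) : ℂ :=
  (qExpansion 1 f).coeff n

/-- `f ∈ S_2(Γ₀(N))` is the newform of the elliptic curve `E : y² = x³ + a x + b` of conductor `N`: the
Fourier coefficients `c(n)` of `f` are real with `c(1) = 1`, they satisfy the Hecke relations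
`c(mn) = c(m) c(n)` for coprime `m`, `n` and `c(p^(j+2)) = c(p) c(p^(j+1)) - p c(p^j)` (without the last
term if `p ∣ N`), `c(p) = a_p = p - N_p` (`N_p` affine points) for all primes `p ∤ 2Δ`, `|c(p)| ≤ 2 √p` for
all `p ∤ N` (Hasse) and `c(p) = 0, 1, -1` for `p ∣ N`. -/
structure IsNewformOf (a b : ℤ) (N : ℕ) (f : CuspForm (Gamma0 N : Subgroup (GL (Fin 2) ℝ)) 2) :
    Prop where
  one : coef f 1 = 1
  real : ∀ n, (coef f n).im = 0
  mul : ∀ m n : ℕ, Nat.Coprime m n → coef f (m * n) = coef f m * coef f n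
  pow : ∀ p j : ℕ, p.Prime → coef f (p ^ (j + 2)) = coef f p * coef f (p ^ (j + 1)) -
      (if p ∣ N then 0 else (p : ℂ) * coef f (p ^ j))
  points : ∀ p : ℕ, GoodPrime a b p → coef f p = (p : ℂ) - (pointCount a b p : ℂ)
  good : ∀ p : ℕ, p.Prime → ¬ p ∣ N → ‖coef f p‖ ≤ 2 * Real.sqrt p
  bad : ∀ p : ℕ, p.Prime → p ∣ N → coef f p = 0 ∨ coef f p = 1 ∨ coef f p = -1

variable {a b : ℤ} {F : ℂ → ℂ}

theorem hecke {N : ℕ} {f : CuspForm (Gamma0 N : Subgroup (GL (Fin 2) ℝ)) 2}
    (hf : IsNewformOf a b N f) : Pool.Agent.TH941.Hecke f where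
  one := hf.one
  real := hf.real
  mul := hf.mul
  pow := hf.pow
  good := hf.good
  bad := fun p hp h => by
    rcases hf.bad p hp h with h1 | h1 | h1
    · have h2 : ‖coef f p‖ ≤ 1 := by rw [h1]; simp
      exact h2
    · have h2 : ‖coef f p‖ ≤ 1 := by rw [h1]; simp
      exact h2
    · have h2 : ‖coef f p‖ ≤ 1 := by rw [h1]; simp
      exact h2

theorem rs {N : ℕ} [NeZero N] {f : CuspForm (Gamma0 N : Subgroup (GL (Fin 2) ℝ)) 2}
    (hΔ : 4 * a ^ 3 + 27 * b ^ 2 ≠ 0) (hf : IsNewformOf a b N f) :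
    Tendsto (Pool.Agent.W263.BSD.rsSum a b) atTop (𝓝 0) :=
  (hecke hf).rsSum_tendsto hΔ fun p hp => hf.points p hp

theorem factor_pos {p : ℕ} (hp : GoodPrime a b p) : 0 < ((pointCount a b p : ℝ) + 1) / p := by
  have hp0 : (0 : ℝ) < p := by exact_mod_cast hp.1.pos
  positivity

theorem localProduct_pos (a b : ℤ) (ρ ρ' X : ℝ) : 0 < localProduct a b ρ ρ' X :=
  Finset.prod_pos fun _ hp => Real.rpow_pos_of_pos (factor_pos (Finset.mem_filter.1 hp).2) _

theorem log_localProduct (a b : ℤ) (ρ ρ' X : ℝ) :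
    Real.log (localProduct a b ρ ρ' X) = Sr a b ρ ρ' X := by
  unfold localProduct Sr
  rw [Real.log_prod fun p hp => (Real.rpow_pos_of_pos (factor_pos (Finset.mem_filter.1 hp).2) _).ne']
  refine Finset.sum_congr rfl fun p hp => ?_
  rw [Real.log_rpow (factor_pos (Finset.mem_filter.1 hp).2)]
  rfl

theorem loglog_tendsto : Tendsto (fun X : ℝ => Real.log (Real.log X)) atTop atTop :=
  Real.tendsto_log_atTop.comp Real.tendsto_log_atTop

/-- the limit of the products if the sector is free of zeros -/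
theorem prod_lim (hΔ : 4 * a ^ 3 + 27 * b ^ 2 ≠ 0) (hrs : Tendsto (rsSum a b) atTop (𝓝 0))
    (hF : IsLSeries a b F) {ρ ρ' : ℝ} (hρ : 1 < ρ) (hρ' : ρ < ρ') {m : ℕ}
    (hm : analyticOrderAt F 1 = m) (hz : ZeroFreeSector F ρ) :
    ∃ A : ℝ, 0 < A ∧ iteratedDeriv m F 1 / (m.factorial : ℂ) = (A : ℂ) ∧
      Tendsto (fun X : ℝ => localProduct a b ρ ρ' X / Real.log X ^ (m : ℝ)) atTop
        (𝓝 (√2 * Real.exp (m * Real.eulerMascheroniConstant / ρ) / A)) := by
  obtain ⟨κ, h1, h2⟩ := Sr_lim hΔ hrs hF hρ hρ' hm hz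
  have hE := Real.exp_pos κ
  set E : ℝ := √2 * Real.exp (m * Real.eulerMascheroniConstant / ρ) with hEd
  have hE0 : 0 < E := by positivity
  have hE2 : √2 * Real.exp (m * ρ⁻¹ * Real.eulerMascheroniConstant) = E := by
    rw [hEd]
    congr 2
    rw [div_eq_mul_inv]
    ring
  rw [hE2] at h2
  have hEc : ((Real.exp κ : ℝ) : ℂ) ≠ 0 := by exact_mod_cast hE.ne'
  refine ⟨E / Real.exp κ, by positivity, ?_, ?_⟩
  · rw [Complex.ofReal_div, eq_div_iff hEc, mul_comm]
    exact h2
  · rw [div_div_cancel₀ hE0.ne']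
    have h3 := (Real.continuous_exp.tendsto κ).comp h1
    refine h3.congr' ?_
    filter_upwards [eventually_gt_atTop 1] with X hX
    have hl : 0 < Real.log X := Real.log_pos hX
    simp only [Function.comp_apply]
    rw [Real.exp_sub, ← log_localProduct, Real.exp_log (localProduct_pos a b ρ ρ' X),
      Real.rpow_def_of_pos hl, mul_comm (m : ℝ)]

/-- a bound of the logarithm of the product gives the sector -/
theorem sector_of_bound (hF : IsLSeries a b F) {ρ ρ' : ℝ} (hρ : 1 < ρ) (hρ' : ρ < ρ') {k C : ℝ}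
    (hC : C ≠ 0)
    (h : Tendsto (fun X : ℝ => localProduct a b ρ ρ' X / Real.log X ^ k) atTop (𝓝 C)) :
    ZeroFreeSector F ρ := by
  have hC0 : 0 < C := by
    refine lt_of_le_of_ne (ge_of_tendsto h ?_) (Ne.symm hC)
    filter_upwards [eventually_gt_atTop 1] with x hx
    exact (div_pos (localProduct_pos a b ρ ρ' x) (Real.rpow_pos_of_pos (Real.log_pos hx) _)).le
  refine sector_of_small hF hρ hρ' (K := |k| + |Real.log C| + 1) ?_
  have h1 := h.log hC0.ne'
  have h2 : ∀ᶠ X : ℝ in atTop, |Real.log (localProduct a b ρ ρ' X / Real.log X ^ k) -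
      Real.log C| < 1 := by
    refine ((Metric.tendsto_nhds.1 h1) 1 one_pos).mono fun X hX => ?_
    rwa [Real.dist_eq] at hX
  filter_upwards [h2, loglog_tendsto.eventually_ge_atTop 1, eventually_gt_atTop 1] with X h3 h4 h5
  have hl : 0 < Real.log X := Real.log_pos h5
  rw [Real.log_div (localProduct_pos a b ρ ρ' X).ne' (Real.rpow_pos_of_pos hl _).ne',
    log_localProduct, Real.log_rpow hl] at h3
  have h6 := abs_sub_abs_le_abs_sub (Sr a b ρ ρ' X) (k * Real.log (Real.log X) + Real.log C)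
  have h7 : Sr a b ρ ρ' X - (k * Real.log (Real.log X) + Real.log C) =
      Sr a b ρ ρ' X - k * Real.log (Real.log X) - Real.log C := by ring
  rw [h7] at h6
  have h8 := abs_add_le (k * Real.log (Real.log X)) (Real.log C)
  rw [abs_mul, abs_of_nonneg (by linarith : 0 ≤ Real.log (Real.log X))] at h8
  have h9 := abs_nonneg (Real.log C)
  nlinarith

/-- the exponent of a power of `log X` is determined by the limit -/
theorem exponent_unique {u : ℝ → ℝ} {k l A B : ℝ} (hA : A ≠ 0) (hB : B ≠ 0)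
    (h1 : Tendsto (fun X : ℝ => u X / Real.log X ^ k) atTop (𝓝 A))
    (h2 : Tendsto (fun X : ℝ => u X / Real.log X ^ l) atTop (𝓝 B)) : k = l := by
  have h3 := h1.div h2 hB
  have h4 : Tendsto (fun X : ℝ => Real.log X ^ (l - k)) atTop (𝓝 (A / B)) := by
    refine h3.congr' ?_
    filter_upwards [h2.eventually_ne hB, eventually_gt_atTop 1] with X h5 h6
    have hl : 0 < Real.log X := Real.log_pos h6
    have h7 : u X ≠ 0 := fun h => h5 (by rw [h, zero_div])
    have h8 := Real.rpow_pos_of_pos hl k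
    have h9 := Real.rpow_pos_of_pos hl l
    simp only [Pi.div_apply]
    rw [Real.rpow_sub hl]
    field_simp
  by_contra hne
  rcases lt_or_gt_of_ne hne with h5 | h5
  · have h6 := (tendsto_rpow_atTop (by linarith : 0 < l - k)).comp Real.tendsto_log_atTop
    exact not_tendsto_nhds_of_tendsto_atTop h6 _ h4
  · have h6 := (tendsto_rpow_neg_atTop (by linarith : 0 < k - l)).comp Real.tendsto_log_atTop
    have h7 : Tendsto (fun X : ℝ => Real.log X ^ (l - k)) atTop (𝓝 0) := by
      refine h6.congr fun X => ?_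
      simp only [Function.comp_apply, neg_sub]
    exact div_ne_zero hA hB (tendsto_nhds_unique h4 h7)

/-- **The original asymptotic of Birch and Swinnerton-Dyer with random cut-off.** -/
theorem result (a b : ℤ) (hΔ : 4 * a ^ 3 + 27 * b ^ 2 ≠ 0) (F : ℂ → ℂ) (hF : IsLSeries a b F)
    (N : ℕ) [NeZero N] (f : CuspForm (Gamma0 N : Subgroup (GL (Fin 2) ℝ)) 2)
    (hf : IsNewformOf a b N f) (k : ℝ) :
    ∃ m : ℕ, analyticOrderAt F 1 = m ∧
      -- for one `ρ`
      (∀ ρ ρ' : ℝ, 1 < ρ → ρ < ρ' → List.TFAE [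
        ∃ A : ℝ, 0 < A ∧
          Tendsto (fun X : ℝ => localProduct a b ρ ρ' X / Real.log X ^ k) atTop (𝓝 A),
        k = m ∧ ZeroFreeSector F ρ,
        k = m ∧ Tendsto (fun X : ℝ => ((localProduct a b ρ ρ' X / Real.log X ^ k : ℝ) : ℂ)) atTop
          (𝓝 ((√2 * Real.exp (m * Real.eulerMascheroniConstant / ρ) * m.factorial : ℝ) /
            iteratedDeriv m F 1))]) ∧
      -- for all `ρ`
      ((∀ ρ ρ' : ℝ, 1 < ρ → ρ < ρ' → ∃ A : ℝ, 0 < A ∧
          Tendsto (fun X : ℝ => localProduct a b ρ ρ' X / Real.log X ^ k) atTop (𝓝 A)) ↔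
        k = m ∧ ∀ s : ℂ, 1 < s.re → F s ≠ 0) := by
  have hrs := rs hΔ hf
  obtain ⟨m, hm⟩ := Pool.Agent.W189.ML.order_finite_all hF 1
  have hfac : ∀ n : ℕ, (n.factorial : ℂ) ≠ 0 := fun n => by exact_mod_cast n.factorial_ne_zero
  have key : ∀ ρ ρ' : ℝ, 1 < ρ → ρ < ρ' → List.TFAE [
        ∃ A : ℝ, 0 < A ∧
          Tendsto (fun X : ℝ => localProduct a b ρ ρ' X / Real.log X ^ k) atTop (𝓝 A),
        k = m ∧ ZeroFreeSector F ρ,
        k = m ∧ Tendsto (fun X : ℝ => ((localProduct a b ρ ρ' X / Real.log X ^ k : ℝ) : ℂ)) atTop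
          (𝓝 ((√2 * Real.exp (m * Real.eulerMascheroniConstant / ρ) * m.factorial : ℝ) /
            iteratedDeriv m F 1))] := by
    intro ρ ρ' hρ hρ'
    tfae_have 2 → 3 := by
      rintro ⟨rfl, hz⟩
      obtain ⟨A, hA, h1, h2⟩ := prod_lim hΔ hrs hF hρ hρ' hm hz
      have h3 := (Complex.continuous_ofReal.tendsto _).comp h2
      have hAc : (A : ℂ) ≠ 0 := by exact_mod_cast hA.ne'
      rw [div_eq_iff (hfac m)] at h1
      have h4 : (((√2 * Real.exp (m * Real.eulerMascheroniConstant / ρ) * m.factorial : ℝ) : ℂ) /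
          iteratedDeriv m F 1) =
          ((√2 * Real.exp (m * Real.eulerMascheroniConstant / ρ) / A : ℝ) : ℂ) := by
        rw [h1]
        have := hfac m
        push_cast
        field_simp
      rw [h4]
      exact ⟨rfl, h3⟩
    tfae_have 3 → 1 := by
      rintro ⟨rfl, h⟩
      obtain ⟨h0, -⟩ := TH942.lead_lim hF.1 hm
      have hne : iteratedDeriv m F 1 ≠ 0 := fun h1 => h0 (by rw [h1, zero_div])
      set L : ℂ := ((√2 * Real.exp (m * Real.eulerMascheroniConstant / ρ) * m.factorial : ℝ) : ℂ) /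
          iteratedDeriv m F 1 with hL
      have hL0 : L ≠ 0 := by
        rw [hL]
        refine div_ne_zero ?_ hne
        have h2 : (0 : ℝ) < √2 * Real.exp (m * Real.eulerMascheroniConstant / ρ) *
          m.factorial := by
          have := m.factorial_pos
          positivity
        exact_mod_cast h2.ne'
      have h1 : Tendsto (fun X : ℝ => localProduct a b ρ ρ' X / Real.log X ^ (m : ℝ)) atTop
          (𝓝 L.re) := by
        have := (Complex.continuous_re.tendsto L).comp h
        refine this.congr fun x => ?_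
        simp only [Function.comp_apply, Complex.ofReal_re]
      have h2 : Tendsto (fun _ : ℝ => (0 : ℝ)) atTop (𝓝 L.im) := by
        have := (Complex.continuous_im.tendsto L).comp h
        refine this.congr fun x => ?_
        simp only [Function.comp_apply, Complex.ofReal_im]
      have h3 : L.re ≠ 0 := fun h0 => hL0 (by
        apply Complex.ext
        · rw [h0, Complex.zero_re]
        · rw [Complex.zero_im]
          exact tendsto_nhds_unique h2 tendsto_const_nhds)
      refine ⟨L.re, lt_of_le_of_ne (ge_of_tendsto h1 ?_) h3.symm, h1⟩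
      filter_upwards [eventually_gt_atTop 1] with x hx
      exact (div_pos (localProduct_pos a b ρ ρ' x) (Real.rpow_pos_of_pos (Real.log_pos hx) _)).le
    tfae_have 1 → 2 := by
      rintro ⟨A, hA, h⟩
      have hz := sector_of_bound hF hρ hρ' hA.ne' h
      obtain ⟨A', hA', h2, h3⟩ := prod_lim hΔ hrs hF hρ hρ' hm hz
      exact ⟨exponent_unique hA.ne' (by positivity) h h3, hz⟩
    tfae_finish
  have key2 : ∀ ρ ρ' : ℝ, 1 < ρ → ρ < ρ' → ((∃ A : ℝ, 0 < A ∧
      Tendsto (fun X : ℝ => localProduct a b ρ ρ' X / Real.log X ^ k) atTop (𝓝 A)) ↔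
      (k = m ∧ ZeroFreeSector F ρ)) := fun ρ ρ' hρ hρ' => (key ρ ρ' hρ hρ').out 0 1
  refine ⟨m, hm, key, ⟨fun h => ?_, ?_⟩⟩
  · have h2 : k = m := ((key2 2 3 one_lt_two (by norm_num)).1
      (h 2 3 one_lt_two (by norm_num))).1
    refine ⟨h2, fun s hs => ?_⟩
    have hs1 : 0 < (s - 1).re := by
      rw [Complex.sub_re, Complex.one_re]
      linarith
    have hs2 : |(s - 1).arg| < Real.pi / 2 := Complex.abs_arg_lt_pi_div_two_iff.2 (Or.inl hs1)
    have hpi := Real.pi_pos
    have h0 := abs_nonneg (s - 1).arg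
    set θ := |(s - 1).arg| with hθ
    have h3 : 1 < 2 * Real.pi / (Real.pi + 2 * θ) := by
      rw [lt_div_iff₀ (by positivity)]
      linarith
    have h4 := ((key2 _ _ h3 (lt_add_one _)).1 (h _ _ h3 (lt_add_one _))).2
    refine h4 s (fun h5 => ?_) ?_
    · rw [h5, sub_self, Complex.zero_re] at hs1
      exact lt_irrefl _ hs1
    · rw [← hθ, lt_div_iff₀ (by positivity)]
      have h5 : 0 < Real.pi + 2 * θ := by positivity
      rw [show θ * (2 * (2 * Real.pi / (Real.pi + 2 * θ))) =
        (4 * Real.pi * θ) / (Real.pi + 2 * θ) by ring, div_lt_iff₀ h5]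
      nlinarith
  · rintro ⟨h1, h2⟩ ρ ρ' hρ hρ'
    refine (key2 ρ ρ' hρ hρ').2 ⟨h1, fun s hs hs' => h2 s ?_⟩
    have hpi := Real.pi_pos
    have h3 : |(s - 1).arg| < Real.pi / 2 := by
      refine hs'.trans ?_
      rw [div_lt_div_iff₀ (by positivity) (by positivity)]
      nlinarith
    rcases Complex.abs_arg_lt_pi_div_two_iff.1 h3 with h4 | h4
    · rw [Complex.sub_re, Complex.one_re] at h4
      linarith
    · exact absurd (sub_eq_zero.1 h4) hs

end Pool.Agent.Results.MP_3283e1_nt.RandomCutoff
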